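import Mathlib
import Pool.Agent.Helper90_SQD.FIN
import Pool.Agent.Helper17_SQD.CNS
import Pool.Agent.Helper1_SQD.NSQ
import Pool.Agent.Helper24_SQD.DVC
import Pool.Agent.Helper25_SQD.ABL
import Pool.Agent.Helper25_SQD.MER
import Pool.Agent.Helper31_SQD.CHR
import Pool.Agent.Helper32_SQD.JAC
import Pool.Agent.Helper44_SQD.CNB
import Pool.Agent.Helper49_SQD.ZET
import Pool.Agent.Helper52_SQD.RED
import Pool.Agent.Helper62_SQD.CNX
import Pool.Agent.Helper69_SQD.INE
import Pool.Agent.Helper69_SQD.SMT
import Pool.Agent.Helper80_SQD.CNG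
import Pool.Agent.Helper81_SQD.LGD
import Pool.Agent.Helper84_SQD.CNT
import Pool.Agent.Helper89_SQD.SVE
import Pool.Agent.Helper97_SQD.SIX
import Pool.Agent.Helper9_SQD.SPT

/-!
# A definable set of squares in `(ℕ; S, ⊥)` which contains almost all squares

For every `A` there is a first-order formula in the language of the successor and coprimality which
is satisfied only by perfect squares, and by the squares `n ^ 2` of all `n ≤ x` but
`O(x / (log x) ^ A)`.

The formula says: for `K = 4 L ^ 4`, `L = 64 (A + 3)`, every `z > K` such that `z - j` and `y - j` have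
the same prime divisors for all `0 ≤ j ≤ K` is a perfect square.  This is expressible because the
arithmetic of the exponents of the powers of `2` is definable.  If `z = b ^ 2 s` is such a number for
`y = n ^ 2` and is not a square (`s > 1` squarefree), then `s` divides `n` and is a quadratic residue
modulo every prime `q > 2 L ^ 2` which divides one of the numbers `n - i`, `i ≤ 2 L ^ 2`; by the sieve
of Brun this is rare (uniformly in `s`, by the zeta function of `ℚ(√s)` for small `s` and by a second
moment for large `s`; if `s > √n` then `n / s` is used in the place of `s`).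
-/

namespace Pool.Agent.Results.MP_0c1440_lc.AlmostAllSquares

open FirstOrder FirstOrder.Language Pool.Agent.SqDef Pool.Agent.SQD

/-- In the natural numbers with only the successor function and the coprimality relation, for every
`A` there is a set `E`, definable without parameters, which consists of perfect squares and contains
the squares of all `n ≤ x` with at most `C * x / (log x) ^ A` exceptions. -/
theorem result :
    ∀ (L : FirstOrder.Language.{0, 0}),
      L = ⟨fun n => PLift (n = 1), fun n => PLift (n = 2)⟩ →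
      ∀ (inst : L.Structure ℕ),
        (∀ (f : L.Functions 1) (v : Fin 1 → ℕ),
            FirstOrder.Language.Structure.funMap f v = v 0 + 1) →
        (∀ (r : L.Relations 2) (v : Fin 2 → ℕ),
            FirstOrder.Language.Structure.RelMap r v ↔ Nat.Coprime (v 0) (v 1)) →
        ∀ A : ℕ, ∃ E : Set ℕ,
          Set.Definable (∅ : Set ℕ) L {v : Fin 1 → ℕ | v 0 ∈ E} ∧
          (∀ y ∈ E, IsSquare y) ∧
          ∃ C : ℝ, ∀ x : ℕ, 2 ≤ x →
            (({n : ℕ | n ≤ x ∧ n ^ 2 ∉ E}.ncard : ℕ) : ℝ) ≤ C * (x : ℝ) / (Real.log x) ^ A := by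
  intro L hL _ hs hr A
  have σ : Nonempty (Sig L) := by
    subst hL
    exact ⟨⟨⟨rfl⟩, ⟨rfl⟩, fun v => hs _ v, fun v => hr _ v⟩⟩
  obtain ⟨σ⟩ := σ
  have hRed : RedStmt := Pool.Agent.SQD.H52.red
  have hSve : SveStmt := Pool.Agent.SQD.H89.sve
  have hMer : MerStmt := Pool.Agent.SQD.H25.mer
  have hSix : SixStmt := Pool.Agent.SQD.H97.six hSve hMer
  have hDvc : DvcStmt := Pool.Agent.SQD.H24.dvc
  have hChr : ChrStmt := Pool.Agent.SQD.H31.chr
  have hSmt : SmtStmt := Pool.Agent.SQD.H69.smt hChr
  have hLgd : LgdStmt := Pool.Agent.SQD.H81.lgd hMer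
  have hNsq : NsqStmt := Pool.Agent.SQD.H1.nsq
  have hJac : JacStmt := Pool.Agent.SQD.H32.jac hNsq
  have hAbl : AblStmt := Pool.Agent.SQD.H25.abl
  have hZet : ZetStmt := Pool.Agent.SQD.H49.zet
  have hEup : EupStmt := Pool.Agent.SQD.H49.eup
  have hSpt : SptStmt := Pool.Agent.SQD.H9.spt hJac hAbl hZet hEup
  have hIne : IneStmt := Pool.Agent.SQD.H69.ine hSpt hMer
  have hCns : CnsStmt := Pool.Agent.SQD.H17.cns hSix hDvc hIne
  have hCnb : CnbStmt := Pool.Agent.SQD.H44.cnb hSix hDvc hIne
  have hCng : CngStmt := Pool.Agent.SQD.H80.cng hSix hDvc hLgd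
  have hCnx : CnxStmt := Pool.Agent.SQD.H62.cnx hSmt
  have hCnt : CntStmt := Pool.Agent.SQD.H84.cnt hCns hCnb hCng hCnx
  exact Pool.Agent.SQD.H90.fin_ hRed hCnt σ A

end Pool.Agent.Results.MP_0c1440_lc.AlmostAllSquares
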