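import Mathlib
import Pool.Agent.Helper2_SQR.Fin
import Pool.Agent.Helper17_SQD.CNS
import Pool.Agent.Helper1_SQD.NSQ
import Pool.Agent.Helper24_SQD.DVC
import Pool.Agent.Helper25_SQD.ABL
import Pool.Agent.Helper25_SQD.MER
import Pool.Agent.Helper31_SQD.CHR
import Pool.Agent.Helper32_SQD.JAC
import Pool.Agent.Helper44_SQD.CNB
import Pool.Agent.Helper49_SQD.ZET
import Pool.Agent.Helper52_SQD.RED
import Pool.Agent.Helper62_SQD.CNX
import Pool.Agent.Helper69_SQD.INE
import Pool.Agent.Helper69_SQD.SMT
import Pool.Agent.Helper80_SQD.CNG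
import Pool.Agent.Helper81_SQD.LGD
import Pool.Agent.Helper84_SQD.CNT
import Pool.Agent.Helper89_SQD.SVE
import Pool.Agent.Helper97_SQD.SIX
import Pool.Agent.Helper9_SQD.SPT

/-!
# In `(ℕ; S, ⊥)` all of arithmetic is definable almost everywhere

For every `A` there is a set `M` of natural numbers, containing all `n ≤ x` but `O(x / (log x) ^ A)`,
such that the restriction to `M` of EVERY arithmetical relation (addition, multiplication, order,
the squares, ...) is definable from the successor and coprimality.  A slightly larger definable set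
`M'` contains in addition the squares `n ^ 2` of all `n ≤ x` but `O(x / (log x) ^ A)`, and the perfect
squares in `M'` still form a definable set.

The main point is a density version of the conjecture of Erdős and Woods: all but
`O(x / (log x) ^ A)` of the numbers `n ≤ x` are determined, among ALL positive integers, by the prime
divisors of `n, n - 1, ..., n - K`, `K = K(A)`.  Proof: let `m` be another number with the same prime
divisors of `m - j`, `n - j` for `j ≤ K`.  The squarefree part `a` of `n m` divides `n` and is a quadratic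
residue modulo every large prime factor `q` of `n - k ^ 2` (as `n m ≡ k ^ 4` modulo `q`); by the sieve of
Brun and a second moment this forces `a = 1` for almost all `n`.  So `n m` and `(n - 1)(m - 1)` are
perfect squares.  Then `2 n - 1` and `2 m - 1` both belong to the solutions of one equation of Pell
`X ^ 2 - D Z ^ 2 = 1`, with the same prime divisors of `D Z`, and an argument of Størmer gives `m = n`.
-/

namespace Pool.Agent.Results.MP_0c1440_lc.ArithmeticAlmostEverywhere

open FirstOrder FirstOrder.Language Pool.Agent.SqDef Pool.Agent.SQD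

/-- In the natural numbers with only the successor function and the coprimality relation, for every
`A` there are sets `M ⊆ M'` such that at most `C * x / (log x) ^ A` of the `n ≤ x` are not in `M`, at
most `C * x / (log x) ^ A` of the `n ≤ x` have `n ^ 2` not in `M'`, every arithmetical relation
restricted to `M` is definable, and `M'` and the set of perfect squares in `M'` are definable
(always without parameters). -/
theorem result :
    ∀ (L : FirstOrder.Language.{0, 0}),
      L = ⟨fun n => PLift (n = 1), fun n => PLift (n = 2)⟩ →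
      ∀ (inst : L.Structure ℕ),
        (∀ (f : L.Functions 1) (v : Fin 1 → ℕ),
            FirstOrder.Language.Structure.funMap f v = v 0 + 1) →
        (∀ (r : L.Relations 2) (v : Fin 2 → ℕ),
            FirstOrder.Language.Structure.RelMap r v ↔ Nat.Coprime (v 0) (v 1)) →
        ∀ A : ℕ, ∃ M M' : Set ℕ, M ⊆ M' ∧
          (∃ C : ℝ, ∀ x : ℕ, 2 ≤ x →
            ({n : ℕ | n ≤ x ∧ n ∉ M}.ncard : ℝ) ≤ C * x / (Real.log x) ^ A ∧
            ({n : ℕ | n ≤ x ∧ n ^ 2 ∉ M'}.ncard : ℝ) ≤ C * x / (Real.log x) ^ A) ∧
          (∀ (r : ℕ) (R : Set (Fin r → ℕ)), Set.Definable (∅ : Set ℕ) arithLang R →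
            Set.Definable (∅ : Set ℕ) L {v : Fin r → ℕ | (∀ i, v i ∈ M) ∧ v ∈ R}) ∧
          Set.Definable (∅ : Set ℕ) L {v : Fin 1 → ℕ | v 0 ∈ M'} ∧
          Set.Definable (∅ : Set ℕ) L {v : Fin 1 → ℕ | v 0 ∈ M' ∧ IsSquare (v 0)} := by
  intro L hL _ hs hr A
  have σ : Nonempty (Sig L) := by
    subst hL
    exact ⟨⟨⟨rfl⟩, ⟨rfl⟩, fun v => hs _ v, fun v => hr _ v⟩⟩
  obtain ⟨σ⟩ := σ
  have hRed : RedStmt := Pool.Agent.SQD.H52.red
  have hSve : SveStmt := Pool.Agent.SQD.H89.sve
  have hMer : MerStmt := Pool.Agent.SQD.H25.mer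
  have hSix : SixStmt := Pool.Agent.SQD.H97.six hSve hMer
  have hDvc : DvcStmt := Pool.Agent.SQD.H24.dvc
  have hChr : ChrStmt := Pool.Agent.SQD.H31.chr
  have hSmt : SmtStmt := Pool.Agent.SQD.H69.smt hChr
  have hLgd : LgdStmt := Pool.Agent.SQD.H81.lgd hMer
  have hNsq : NsqStmt := Pool.Agent.SQD.H1.nsq
  have hJac : JacStmt := Pool.Agent.SQD.H32.jac hNsq
  have hAbl : AblStmt := Pool.Agent.SQD.H25.abl
  have hZet : ZetStmt := Pool.Agent.SQD.H49.zet
  have hEup : EupStmt := Pool.Agent.SQD.H49.eup
  have hSpt : SptStmt := Pool.Agent.SQD.H9.spt hJac hAbl hZet hEup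
  have hIne : IneStmt := Pool.Agent.SQD.H69.ine hSpt hMer
  have hCns : CnsStmt := Pool.Agent.SQD.H17.cns hSix hDvc hIne
  have hCnb : CnbStmt := Pool.Agent.SQD.H44.cnb hSix hDvc hIne
  have hCng : CngStmt := Pool.Agent.SQD.H80.cng hSix hDvc hLgd
  have hCnx : CnxStmt := Pool.Agent.SQD.H62.cnx hSmt
  have hCnt : CntStmt := Pool.Agent.SQD.H84.cnt hCns hCnb hCng hCnx
  exact Pool.Agent.SQR.main hRed hCnt σ A

end Pool.Agent.Results.MP_0c1440_lc.ArithmeticAlmostEverywhere
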